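import Mathlib
import Pool.Agent.U514.SP.Defs

/-!
# Arithmetic circuits whose wires join neighbouring points of the grid (definitions)
-/

set_option autoImplicit false

namespace Pool.Agent.U514.TG

open Finset
open Pool.Agent.U514.SP (Opd Net dst IsAlg nnz)

/-- polynomial of an entry: a variable or a constant -/
noncomputable def ent {F V : Type} [Field F] (e : V ⊕ F) : MvPolynomial V F :=
  match e with
  | .inl v => MvPolynomial.X v
  | .inr c => MvPolynomial.C c

/-- A tile: it gets `x` from the south and `y` from the west, and sends `outX` to the north and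
`outY` to the east. -/
structure Tile (F V : Type) where
  mul : Bool
  a : F
  c : F
  b : F
  d : F
  r : F
  e : V ⊕ F

namespace Tile

variable {F V : Type} [Field F]

noncomputable def outX (T : Tile F V) (x y : MvPolynomial V F) : MvPolynomial V F :=
  if T.mul then (MvPolynomial.C T.a * x) * (MvPolynomial.C T.c * y)
  else MvPolynomial.C T.a * x + MvPolynomial.C T.c * y

noncomputable def outY (T : Tile F V) (x y : MvPolynomial V F) : MvPolynomial V F :=
  MvPolynomial.C T.b * y + MvPolynomial.C T.d * x + MvPolynomial.C T.r * ent T.e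

end Tile

/-- A finite region of tiles; the tile at (column, row) gets the polynomial `x` from the south and
`y` from the west (`0` if there is no tile). -/
structure Grid (F V : Type) [Field F] where
  R : Finset (ℕ × ℕ)
  tile : ℕ × ℕ → Tile F V
  x : ℕ × ℕ → MvPolynomial V F
  y : ℕ × ℕ → MvPolynomial V F

structure Grid.OK {F V : Type} [Field F] (P : Grid F V) : Prop where
  x_eq : ∀ c r : ℕ, (c, r) ∈ P.R → (c, r + 1) ∈ P.R →
    P.x (c, r + 1) = (P.tile (c, r)).outX (P.x (c, r)) (P.y (c, r))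
  x_zero : ∀ c r : ℕ, (c, r) ∈ P.R → (r = 0 ∨ (c, r - 1) ∉ P.R) → P.x (c, r) = 0
  y_eq : ∀ c r : ℕ, (c, r) ∈ P.R → (c + 1, r) ∈ P.R →
    P.y (c + 1, r) = (P.tile (c, r)).outY (P.x (c, r)) (P.y (c, r))
  y_zero : ∀ c r : ℕ, (c, r) ∈ P.R → (c = 0 ∨ (c - 1, r) ∉ P.R) → P.y (c, r) = 0

/-- All wires of the net have length one. -/
def NN {F V : Type} [Field F] (Q : Net F V) : Prop :=
  ∀ g h, (Q.fst g = .ref h ∨ Q.snd g = .ref h) → dst (Q.pos h) (Q.pos g) = 1

/-! ### The layout of one superblock -/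

/-- Parameters: an algorithm with index set `Fin nX` and products `Fin nT`, block sizes `t τ`, and
matrices with rows `Fin nX × Fin m`, inner indices `Fin nX × Fin N`, columns `Fin nX × Fin m`. -/
structure Par (F V : Type) [Field F] where
  nX : ℕ
  nT : ℕ
  m : ℕ
  N : ℕ
  a : Fin nT → Fin nX → Fin nX → F
  b : Fin nT → Fin nX → Fin nX → F
  c : Fin nT → Fin nX → Fin nX → F
  t : Fin nT → ℕ
  A : Fin nX → ℕ → Fin nX → ℕ → V ⊕ F
  B : Fin nX → ℕ → Fin nX → ℕ → V ⊕ F

namespace Par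

variable {F V : Type} [Field F] (p : Par F V)

structure Good : Prop where
  nX_pos : 0 < p.nX
  nT_pos : 0 < p.nT
  m_pos : 0 < p.m
  N_pos : 0 < p.N
  t_pos : ∀ τ, 0 < p.t τ
  t_dvd : ∀ τ, p.t τ ∣ p.m
  alg : IsAlg p.a p.b p.c
  nnz_a : ∀ τ, nnz (p.a τ) ≤ p.t τ ^ 2
  nnz_b : ∀ τ, nnz (p.b τ) ≤ p.t τ ^ 2

open Classical in
/-- The list of the nonzero places of a matrix (`none` after its end). -/
noncomputable def place (f : Fin p.nX → Fin p.nX → F) (e : ℕ) : Option (Fin p.nX × Fin p.nX) :=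
  if h : e < (univ.filter fun q : Fin p.nX × Fin p.nX => f q.1 q.2 ≠ 0).card then
    some ((univ.filter fun q : Fin p.nX × Fin p.nX => f q.1 q.2 ≠ 0).equivFin.symm ⟨e, h⟩).1
  else none

/-- Coefficient and entry of the term `e` of the left linear form of row `i`, inner index `j`. -/
noncomputable def coA (τ : Fin p.nT) (i j e : ℕ) : F × (V ⊕ F) :=
  (p.place (p.a τ) e).elim (0, .inr 0) fun q => (p.a τ q.1 q.2, p.A q.1 i q.2 j)

noncomputable def coB (τ : Fin p.nT) (k j e : ℕ) : F × (V ⊕ F) :=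
  (p.place (p.b τ) e).elim (0, .inr 0) fun q => (p.b τ q.1 q.2, p.B q.1 j q.2 k)

/-- Partial sums of the linear forms. -/
noncomputable def SL (τ : Fin p.nT) (i j e : ℕ) : MvPolynomial V F :=
  ∑ u ∈ range e, MvPolynomial.C (p.coA τ i j u).1 * ent (p.coA τ i j u).2

noncomputable def SR (τ : Fin p.nT) (k j e : ℕ) : MvPolynomial V F :=
  ∑ u ∈ range e, MvPolynomial.C (p.coB τ k j u).1 * ent (p.coB τ k j u).2

/-- The linear forms. -/
noncomputable def FL (τ : Fin p.nT) (i j : ℕ) : MvPolynomial V F := p.SL τ i j (p.t τ ^ 2)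

noncomputable def FR (τ : Fin p.nT) (k j : ℕ) : MvPolynomial V F := p.SR τ k j (p.t τ ^ 2)

/-- Partial sums of the inner products. -/
noncomputable def M (τ : Fin p.nT) (i k j : ℕ) : MvPolynomial V F :=
  ∑ u ∈ range j, p.FL τ i u * p.FR τ k u

/-- Width of a slot. -/
abbrev W : ℕ := 3 * p.m ^ 2 + 1

/-! Column `σ * W + c`, `σ = (τ * m + I) * m + J`: column `c` of the strip of `(τ, I, J)`. Columns
`c < t ^ 2` read; the column `t ^ 2 + 2 (k * t + i) + side` is the track of `(i, k)`. The rows of the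
strip are `3 (m - t) N + 3 t j + ρ`, `j < N`, `ρ < 3 t`. -/

/-- The product `τ` of a column (if `σ < nT * m * m`). -/
def tauOf (col : ℕ) : ℕ := col / p.W / (p.m * p.m)
def Iof (col : ℕ) : ℕ := col / p.W / p.m % p.m
def Jof (col : ℕ) : ℕ := col / p.W % p.m
def cOf (col : ℕ) : ℕ := col % p.W

/-- The column is one of a strip. -/
def InStrip (τ : Fin p.nT) (col : ℕ) : Prop :=
  p.tauOf col = τ ∧ p.Iof col < p.m / p.t τ ∧ p.Jof col < p.m / p.t τ ∧ p.cOf col < 3 * p.t τ ^ 2

instance (τ : Fin p.nT) (col : ℕ) : Decidable (p.InStrip τ col) := by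
  unfold InStrip; infer_instance

/-- First row of the strips of `τ`. -/
def start (τ : Fin p.nT) : ℕ := 3 * (p.m - p.t τ) * p.N

/-- Number of columns. -/
def width : ℕ := p.nT * (p.m * p.m) * p.W

/-- Number of the last row of the strips plus one. -/
def top : ℕ := 3 * p.m * p.N

/-- The region. -/
def region : Finset (ℕ × ℕ) :=
  ((range p.width ×ˢ range p.top).filter fun q =>
      ∃ τ : Fin p.nT, p.InStrip τ q.1 ∧ p.start τ ≤ q.2) ∪
    range p.width ×ˢ Ico p.top (p.top + (p.nX * p.m) ^ 2)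

/-- Local values in a strip: column `c < 3 t ^ 2`, layer `j`, row `ρ < 3 t`; `I`, `J` are the numbers
of the blocks. -/
noncomputable def sx (τ : Fin p.nT) (I J c j ρ : ℕ) : MvPolynomial V F :=
  let t := p.t τ
  if c < t ^ 2 then 0 else
    let q := (c - t ^ 2) / 2
    let i := q % t
    let k := q / t
    if (c - t ^ 2) % 2 = 0 then
      if ρ ≤ i then (if j = 0 then 0 else p.FL τ (I * t + i) (j - 1) * p.FR τ (J * t + k) (j - 1))
      else if ρ ≤ t + 2 * k then p.FL τ (I * t + i) j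
      else p.FL τ (I * t + i) j * p.FR τ (J * t + k) j
    else
      if ρ ≤ t + 2 * k + 1 then p.M τ (I * t + i) (J * t + k) j
      else p.M τ (I * t + i) (J * t + k) (j + 1)

noncomputable def sy (τ : Fin p.nT) (I J c j ρ : ℕ) : MvPolynomial V F :=
  let t := p.t τ
  if ρ < t then (if c < t ^ 2 then p.SL τ (I * t + ρ) j c else p.FL τ (I * t + ρ) j)
  else if (ρ - t) % 2 = 0 then
    (if c < t ^ 2 then p.SR τ (J * t + (ρ - t) / 2) j c else p.FR τ (J * t + (ρ - t) / 2) j)
  else if t ^ 2 ≤ c ∧ (c - t ^ 2) % 2 = 1 ∧ (c - t ^ 2) / 2 / t = (ρ - t) / 2 then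
    p.FL τ (I * t + (c - t ^ 2) / 2 % t) j * p.FR τ (J * t + (ρ - t) / 2) j
  else 0

/-- Local tiles in a strip. -/
noncomputable def stile (τ : Fin p.nT) (I J c j ρ : ℕ) : Tile F V :=
  let t := p.t τ
  if c < t ^ 2 then
    if ρ < t then ⟨false, 0, 0, 1, 0, (p.coA τ (I * t + ρ) j c).1, (p.coA τ (I * t + ρ) j c).2⟩
    else if (ρ - t) % 2 = 0 then
      ⟨false, 0, 0, 1, 0, (p.coB τ (J * t + (ρ - t) / 2) j c).1,
        (p.coB τ (J * t + (ρ - t) / 2) j c).2⟩
    else ⟨false, 0, 0, 0, 0, 0, .inr 0⟩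
  else
    let q := (c - t ^ 2) / 2
    let i := q % t
    let k := q / t
    if (c - t ^ 2) % 2 = 0 then
      if ρ < t then (if ρ = i then ⟨false, 0, 1, 1, 0, 0, .inr 0⟩ else ⟨false, 1, 0, 1, 0, 0, .inr 0⟩)
      else if (ρ - t) % 2 = 0 then
        (if (ρ - t) / 2 = k then ⟨true, 1, 1, 1, 0, 0, .inr 0⟩ else ⟨false, 1, 0, 1, 0, 0, .inr 0⟩)
      else
        (if (ρ - t) / 2 = k then ⟨false, 1, 0, 0, 1, 0, .inr 0⟩ else ⟨false, 1, 0, 0, 0, 0, .inr 0⟩)
    else
      if ρ < t ∨ (ρ - t) % 2 = 0 then ⟨false, 1, 0, 1, 0, 0, .inr 0⟩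
      else if (ρ - t) / 2 = k then ⟨false, 1, 1, 0, 0, 0, .inr 0⟩
      else ⟨false, 1, 0, 0, 0, 0, .inr 0⟩

/-- The polynomial which comes from the south in the output rows. -/
noncomputable def ox (col : ℕ) : MvPolynomial V F :=
  if h : ∃ τ : Fin p.nT, p.InStrip τ col then
    (let τ := h.choose
     p.sx τ (p.Iof col) (p.Jof col) (p.cOf col) p.N 0)
  else 0

/-- The output number `o`: `(x, i, z, k)`, `o = ((x * m + i) * nX + z) * m + k`. -/
def oX (o : ℕ) : ℕ := o / (p.m * (p.nX * p.m))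
def oI (o : ℕ) : ℕ := o / (p.nX * p.m) % p.m
def oZ (o : ℕ) : ℕ := o / p.m % p.nX
def oK (o : ℕ) : ℕ := o % p.m

/-- The factor of the value from the south in the output row `o`. -/
noncomputable def od (col o : ℕ) : F :=
  if h : (∃ τ : Fin p.nT, p.InStrip τ col) ∧ p.oX o < p.nX ∧ p.oZ o < p.nX then
    (let τ := h.1.choose
     let t := p.t τ
     let q := (p.cOf col - t ^ 2) / 2
     if t ^ 2 ≤ p.cOf col ∧ (p.cOf col - t ^ 2) % 2 = 1 ∧ p.Iof col * t + q % t = p.oI o ∧
        p.Jof col * t + q / t = p.oK o then p.c τ ⟨p.oX o, h.2.1⟩ ⟨p.oZ o, h.2.2⟩ else 0)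
  else 0

/-- The grid of a superblock. -/
noncomputable def grid : Grid F V where
  R := p.region
  tile := fun q =>
    if p.top ≤ q.2 then ⟨false, 1, 0, 1, p.od q.1 (q.2 - p.top), 0, .inr 0⟩
    else if h : ∃ τ : Fin p.nT, p.InStrip τ q.1 then
      (let τ := h.choose
       p.stile τ (p.Iof q.1) (p.Jof q.1) (p.cOf q.1) ((q.2 - p.start τ) / (3 * p.t τ))
        ((q.2 - p.start τ) % (3 * p.t τ)))
    else ⟨false, 1, 0, 1, 0, 0, .inr 0⟩
  x := fun q =>
    if p.top ≤ q.2 then p.ox q.1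
    else if h : ∃ τ : Fin p.nT, p.InStrip τ q.1 then
      (let τ := h.choose
       p.sx τ (p.Iof q.1) (p.Jof q.1) (p.cOf q.1) ((q.2 - p.start τ) / (3 * p.t τ))
        ((q.2 - p.start τ) % (3 * p.t τ)))
    else 0
  y := fun q =>
    if p.top ≤ q.2 then
      ∑ col ∈ range q.1, MvPolynomial.C (p.od col (q.2 - p.top)) * p.ox col
    else if h : ∃ τ : Fin p.nT, p.InStrip τ q.1 then
      (let τ := h.choose
       p.sy τ (p.Iof q.1) (p.Jof q.1) (p.cOf q.1) ((q.2 - p.start τ) / (3 * p.t τ))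
        ((q.2 - p.start τ) % (3 * p.t τ)))
    else 0

end Par

end Pool.Agent.U514.TG
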