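import Mathlib
import Pool.Agent.U514.TG.Defs
import Pool.Agent.U514.SP.Stm

/-!
# Project TG: statements of the packages
-/

set_option autoImplicit false

namespace Pool.Agent.U514.TG

open Finset
open Pool.Agent.H522R2 Pool.Agent.H522R2.Circuit Pool.Agent.H522R3.TW
open Pool.Agent.U514.MM
open Pool.Agent.U514.SP (Opd Net dst IsAlg nnz X₀ T₀)

/-- All wires between gates join neighbouring points of `ℤ ^ d`. -/
def Neighbours {F V : Type} {d : ℕ} (C : Circuit F V)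
    (pos : {k : Fin C.nodes // IsGate C k} → Fin d → ℤ) : Prop :=
  ∀ h g : {k : Fin C.nodes // IsGate C k}, Feeds C h.1 g.1 →
    ∑ i, (pos h i - pos g i).natAbs = 1

/-- NETL: every net of gates in the plane with wires of length one is a circuit with gates in
`ℤ ^ d`, `d ≥ 2`, whose wires join neighbouring points. -/
def S_NETL : Prop :=
  ∀ (F V : Type) [Field F] (Q : Net F V), Q.OK → NN Q → ∀ d : ℕ, 2 ≤ d →
    ∃ (C : Circuit F V) (pos : {k : Fin C.nodes // IsGate C k} → Fin d → ℤ),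
      Function.Injective pos ∧ Neighbours C pos ∧ (∀ g, ∃ k, C.poly k = Q.pol g) ∧
      C.size ≤ Nat.card Q.G

/-- TILE: finitely many grids of tiles are a net with wires of length one. -/
def S_TILE : Prop :=
  ∀ (F V ι : Type) [Field F] [Fintype ι] (P : ι → Grid F V), (∀ i, (P i).OK) →
    ∃ Q : Net F V, Q.OK ∧ NN Q ∧
      (∀ i, ∀ q ∈ (P i).R, ∃ g, Q.pol g = ((P i).tile q).outY ((P i).x q) ((P i).y q)) ∧
      Nat.card Q.G ≤ 20 * ∑ i, (P i).R.card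

/-- LOCX: the values go on to the north. -/
def S_LOCX : Prop :=
  ∀ (F V : Type) [Field F] (p : Par F V), p.Good → ∀ (τ : Fin p.nT) (I J c j ρ : ℕ),
    c < 3 * p.t τ ^ 2 → ρ < 3 * p.t τ →
    (p.stile τ I J c j ρ).outX (p.sx τ I J c j ρ) (p.sy τ I J c j ρ) =
      if ρ + 1 < 3 * p.t τ then p.sx τ I J c j (ρ + 1) else p.sx τ I J c (j + 1) 0

/-- LOCY: the values go on to the east. -/
def S_LOCY : Prop :=
  ∀ (F V : Type) [Field F] (p : Par F V), p.Good → ∀ (τ : Fin p.nT) (I J c j ρ : ℕ),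
    c + 1 < 3 * p.t τ ^ 2 → ρ < 3 * p.t τ →
    (p.stile τ I J c j ρ).outY (p.sx τ I J c j ρ) (p.sy τ I J c j ρ) = p.sy τ I J (c + 1) j ρ

/-- GRID: the layout of a superblock satisfies the conditions on grids. -/
def S_GRID : Prop :=
  ∀ (F V : Type) [Field F] (p : Par F V), p.Good → p.grid.OK

/-- SUMO: the values of the output rows. -/
def S_SUMO : Prop :=
  ∀ (F V : Type) [Field F] (p : Par F V), p.Good →
    ∀ (x z : Fin p.nX) (i k : Fin p.m),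
      ∑ col ∈ range p.width, MvPolynomial.C
          (p.od col (((x.val * p.m + i.val) * p.nX + z.val) * p.m + k.val)) * p.ox col =
        ∑ τ : Fin p.nT, MvPolynomial.C (p.c τ x z) * p.M τ i k p.N

/-- ALG: the algorithm. -/
def S_ALG : Prop :=
  ∀ (F V : Type) [Field F] (p : Par F V), p.Good →
    ∀ (x z : Fin p.nX) (i k : ℕ),
      ∑ τ : Fin p.nT, MvPolynomial.C (p.c τ x z) * p.M τ i k p.N =
        ∑ y : Fin p.nX, ∑ j ∈ range p.N, ent (p.A x i y j) * ent (p.B y j z k)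

/-- CARD: number of tiles. -/
def S_CARD : Prop :=
  ∀ (F V : Type) [Field F] (p : Par F V), p.Good →
    p.region.card ≤ 9 * p.m ^ 2 * p.N * ∑ τ, p.t τ + 4 * p.nT * p.nX ^ 2 * p.m ^ 6

/-- BASEX: trilinear aggregation, with the number. -/
def S_BASEX : Prop :=
  ∀ (F : Type) [Field F], ∃ (a b c : T₀ → X₀ → X₀ → F) (w : T₀ → ℝ), IsAlg a b c ∧
    (∀ τ, (nnz (a τ) : ℝ) ≤ w τ ^ 2) ∧ (∀ τ, (nnz (b τ) : ℝ) ≤ w τ ^ 2) ∧
    (∀ τ, 1 ≤ w τ ∧ w τ ≤ 16) ∧ ∑ τ, w τ ≤ 14745600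

/-- ASYX: the exponent `2.996`. -/
def S_ASYX : Prop :=
  ∀ A : ℝ, 0 ≤ A → ∃ D : ℝ, ∀ cost : ℕ → ℕ, cost 0 = 0 →
    (∀ l s n : ℕ, 0 < s → n ≤ 4096 ^ l * s →
      (cost n : ℝ) ≤ A * (((16 : ℝ) ^ l * s) ^ 3 * 14745600 ^ l +
        (s : ℝ) ^ 2 * (8585216 * 2 ^ 40) ^ l)) →
    ∀ n : ℕ, (cost n : ℝ) ≤ D * (n : ℝ) ^ (2.996 : ℝ)

end Pool.Agent.U514.TG
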