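import Mathlib
import Pool.Agent.U514.TG.Stm
import Pool.Agent.U514.SP.Pad

/-!
# Project TG: from the layout to matrix multiplication
-/

set_option autoImplicit false

namespace Pool.Agent.U514.TG

open Finset
open Pool.Agent.H522R2 Pool.Agent.H522R2.Circuit Pool.Agent.H522R3.TW
open Pool.Agent.U514.MM
open Pool.Agent.U514.SP (Opd Net dst IsAlg nnz X₀ T₀ row inn exists_row inn_lt sum_inn)

/-- The least number of gates of a circuit for the product of two `m × m` matrices with gates at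
different points of `ℤ ^ d` and all wires between gates joining neighbouring points. -/
noncomputable def gridMM (F : Type) [Field F] (d m : ℕ) : ℕ :=
  sInf {c | ∃ (C : Circuit F (Vars m)) (pos : {k : Fin C.nodes // IsGate C k} → Fin d → ℤ),
    (∀ i j, ∃ k, C.poly k = entry F m i j) ∧ Function.Injective pos ∧ Neighbours C pos ∧
      C.size = c}

/-- The parameters of the superblock `(i3, k3)` for two `n × n` matrices. -/
noncomputable def mkPar {F : Type} [Field F] (nX nT m s : ℕ) (a b c : Fin nT → Fin nX → Fin nX → F)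
    (t : Fin nT → ℕ) (n : ℕ) (i3 k3 : ℕ) : Par F (Vars n) where
  nX := nX
  nT := nT
  m := m
  N := m * s
  a := a
  b := b
  c := c
  t := t
  A := fun x i y j => if h : (x.val * m + i) * s + i3 < n ∧ y.val * (m * s) + j < n then
    Sum.inl (Sum.inl (⟨_, h.1⟩, ⟨_, h.2⟩)) else Sum.inr 0
  B := fun y j z k => if h : y.val * (m * s) + j < n ∧ (z.val * m + k) * s + k3 < n then
    Sum.inl (Sum.inr (⟨_, h.1⟩, ⟨_, h.2⟩)) else Sum.inr 0

/-- **Padding.** -/
theorem pad (hN : S_NETL) (hT : S_TILE) (hG : S_GRID) (hS : S_SUMO) (hA : S_ALG) (hC : S_CARD)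
    (F : Type) [Field F] (d : ℕ) (hd : 2 ≤ d) (nX nT m s : ℕ)
    (a b c : Fin nT → Fin nX → Fin nX → F) (t : Fin nT → ℕ) (hnX : 0 < nX) (hnT : 0 < nT)
    (hm : 0 < m) (hs : 0 < s) (ht : ∀ τ, 0 < t τ) (htm : ∀ τ, t τ ∣ m) (halg : IsAlg a b c)
    (hna : ∀ τ, nnz (a τ) ≤ t τ ^ 2) (hnb : ∀ τ, nnz (b τ) ≤ t τ ^ 2) (n : ℕ)
    (hn : n ≤ nX * (m * s)) :
    ∃ (C : Circuit F (Vars n)) (pos : {k : Fin C.nodes // IsGate C k} → Fin d → ℤ),
      (∀ i j, ∃ k, C.poly k = entry F n i j) ∧ Function.Injective pos ∧ Neighbours C pos ∧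
      C.size ≤ 20 * (s * s * (9 * m ^ 2 * (m * s) * ∑ τ, t τ + 4 * nT * nX ^ 2 * m ^ 6)) := by
  let p : Fin s × Fin s → Par F (Vars n) := fun q => mkPar nX nT m s a b c t n q.1 q.2
  have hp : ∀ q, (p q).Good := fun q =>
    ⟨hnX, hnT, hm, Nat.mul_pos hm hs, ht, htm, halg, hna, hnb⟩
  obtain ⟨Q, hQ, hQ0, hQ1, hQ2⟩ := hT F (Vars n) (Fin s × Fin s) (fun q => (p q).grid)
    fun q => hG F (Vars n) (p q) (hp q)
  obtain ⟨C, pos, h1, h2, h3, h4⟩ := hN F (Vars n) Q hQ hQ0 d hd
  have hcard : ∑ q : Fin s × Fin s, ((p q).grid).R.card ≤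
      s * s * (9 * m ^ 2 * (m * s) * ∑ τ, t τ + 4 * nT * nX ^ 2 * m ^ 6) := by
    calc ∑ q : Fin s × Fin s, ((p q).grid).R.card
        ≤ ∑ q : Fin s × Fin s, (9 * m ^ 2 * (m * s) * ∑ τ, t τ + 4 * nT * nX ^ 2 * m ^ 6) :=
          sum_le_sum fun q _ => hC F (Vars n) (p q) (hp q)
      _ = _ := by simp
  refine ⟨C, pos, ?_, h1, h2, h4.trans (hQ2.trans (Nat.mul_le_mul_left 20 hcard))⟩
  intro i k
  have hsN : nX * m * s = nX * (m * s) := by ring
  obtain ⟨⟨x, i', i3⟩, hx⟩ := exists_row (nX := nX) (m := m) (s := s) (n := i.val)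
    (by rw [hsN]; exact i.2.trans_le hn)
  obtain ⟨⟨z, k', k3⟩, hz⟩ := exists_row (nX := nX) (m := m) (s := s) (n := k.val)
    (by rw [hsN]; exact k.2.trans_le hn)
  have hw : 0 < (p (i3, k3)).width := by
    change 0 < nT * (m * m) * (3 * m ^ 2 + 1)
    positivity
  obtain ⟨w, hw'⟩ : ∃ w, (p (i3, k3)).width = w + 1 := ⟨_, (Nat.succ_pred_eq_of_pos hw).symm⟩
  obtain ⟨o, ho⟩ : ∃ o, o = ((x.val * m + i'.val) * nX + z.val) * m + k'.val := ⟨_, rfl⟩
  have ho' : o < (nX * m) ^ 2 := by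
    have a1 : x.val * m + i'.val < nX * m := by
      calc x.val * m + i'.val < x.val * m + m := by omega
        _ = (x.val + 1) * m := by ring
        _ ≤ nX * m := Nat.mul_le_mul_right _ x.2
    have a2 : (x.val * m + i'.val) * nX + z.val < nX * m * nX := by
      calc (x.val * m + i'.val) * nX + z.val < (x.val * m + i'.val) * nX + nX := by omega
        _ = (x.val * m + i'.val + 1) * nX := by ring
        _ ≤ nX * m * nX := Nat.mul_le_mul_right _ a1
    calc o = ((x.val * m + i'.val) * nX + z.val) * m + k'.val := ho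
      _ < ((x.val * m + i'.val) * nX + z.val) * m + m := by omega
      _ = ((x.val * m + i'.val) * nX + z.val + 1) * m := by ring
      _ ≤ nX * m * nX * m := Nat.mul_le_mul_right _ a2
      _ = _ := by ring
  obtain ⟨g, hg⟩ := hQ1 (i3, k3) (w, (p (i3, k3)).top + o) (by
    refine mem_union_right _ ?_
    rw [mem_product, mem_range, mem_Ico]
    refine ⟨?_, Nat.le_add_right _ _, ?_⟩
    · change w < (p (i3, k3)).width
      omega
    · change (p (i3, k3)).top + o < (p (i3, k3)).top + (nX * m) ^ 2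
      omega)
  obtain ⟨q, hq⟩ := h3 g
  refine ⟨q, ?_⟩
  rw [hq, hg]
  have e0 : (p (i3, k3)).top ≤ (p (i3, k3)).top + o := Nat.le_add_right _ _
  have e1 : (p (i3, k3)).grid.tile (w, (p (i3, k3)).top + o) =
      ⟨false, 1, 0, 1, (p (i3, k3)).od w o, 0, .inr 0⟩ := by
    change (if (p (i3, k3)).top ≤ (p (i3, k3)).top + o then _ else _) = _
    rw [if_pos e0]
    simp
  have e2 : (p (i3, k3)).grid.x (w, (p (i3, k3)).top + o) = (p (i3, k3)).ox w := by
    change (if (p (i3, k3)).top ≤ (p (i3, k3)).top + o then _ else _) = _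
    rw [if_pos e0]
  have e3 : (p (i3, k3)).grid.y (w, (p (i3, k3)).top + o) =
      ∑ col ∈ range w, MvPolynomial.C ((p (i3, k3)).od col o) * (p (i3, k3)).ox col := by
    change (if (p (i3, k3)).top ≤ (p (i3, k3)).top + o then _ else _) = _
    rw [if_pos e0]
    simp
  rw [e1, e2, e3]
  have e4 := hS F (Vars n) (p (i3, k3)) (hp _) x z i' k'
  have e5 := hA F (Vars n) (p (i3, k3)) (hp _) x z i'.val k'.val
  have e6 : (⟨false, 1, 0, 1, (p (i3, k3)).od w o, 0, .inr 0⟩ : Tile F (Vars n)).outY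
      ((p (i3, k3)).ox w)
      (∑ col ∈ range w, MvPolynomial.C ((p (i3, k3)).od col o) * (p (i3, k3)).ox col) =
      ∑ col ∈ range (p (i3, k3)).width,
        MvPolynomial.C ((p (i3, k3)).od col o) * (p (i3, k3)).ox col := by
    rw [hw', sum_range_succ]
    simp [Tile.outY]
  have e4' : ∑ col ∈ range (p (i3, k3)).width,
        MvPolynomial.C ((p (i3, k3)).od col o) * (p (i3, k3)).ox col =
        ∑ τ : Fin nT, MvPolynomial.C (c τ x z) * (p (i3, k3)).M τ i' k' (m * s) := by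
    rw [ho]
    exact e4
  rw [e6, e4']
  refine Eq.trans e5 ?_
  have e7 : ∀ (y : Fin nX) (j : Fin (m * s)),
      ent ((p (i3, k3)).A x i' y j) * ent ((p (i3, k3)).B y j z k') =
      (fun l : ℕ => if h : l < n then MvPolynomial.X (R := F) (Sum.inl (i, ⟨l, h⟩) : Vars n) *
        MvPolynomial.X (Sum.inr (⟨l, h⟩, k)) else 0) (inn nX (m * s) (y, j)) := by
    intro y j
    have eA : (p (i3, k3)).A x i' y j = (if h : row nX m s (x, i', i3) < n ∧
        inn nX (m * s) (y, j) < n then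
        Sum.inl (Sum.inl (⟨_, h.1⟩, ⟨_, h.2⟩)) else Sum.inr 0 : Vars n ⊕ F) := rfl
    have eB : (p (i3, k3)).B y j z k' = (if h : inn nX (m * s) (y, j) < n ∧
        row nX m s (z, k', k3) < n then
        Sum.inl (Sum.inr (⟨_, h.1⟩, ⟨_, h.2⟩)) else Sum.inr 0 : Vars n ⊕ F) := rfl
    rw [eA, eB]
    simp only
    by_cases h : inn nX (m * s) (y, j) < n
    · have g1 : row nX m s (x, i', i3) < n := by rw [hx]; exact i.2
      have g2 : row nX m s (z, k', k3) < n := by rw [hz]; exact k.2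
      have f1 : (⟨row nX m s (x, i', i3), g1⟩ : Fin n) = i := Fin.ext hx
      have f2 : (⟨row nX m s (z, k', k3), g2⟩ : Fin n) = k := Fin.ext hz
      rw [dif_pos h, dif_pos ⟨g1, h⟩, dif_pos ⟨h, g2⟩, f1, f2]
      rfl
    · rw [dif_neg h, dif_neg fun h' => h h'.2, dif_neg fun h' => h h'.1]
      simp [ent]
  have e8 := sum_inn nX (m * s) n hn
    (fun l : ℕ => if h : l < n then MvPolynomial.X (R := F) (Sum.inl (i, ⟨l, h⟩) : Vars n) *
        MvPolynomial.X (Sum.inr (⟨l, h⟩, k)) else 0) (fun l hl => dif_neg (by omega))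
  unfold entry
  refine Eq.trans (sum_congr rfl fun y _ => ?_) (e8.trans ?_)
  · change ∑ j ∈ range (m * s), _ = _
    rw [sum_range]
    exact sum_congr rfl fun j _ => e7 y j
  · refine sum_congr rfl fun l _ => ?_
    rw [dif_pos l.2]

end Pool.Agent.U514.TG
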