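import Mathlib
import Pool.Agent.U514.TG.Pad

/-!
# Project TG: assembly
-/

set_option autoImplicit false

namespace Pool.Agent.U514.TG

open Finset
open Pool.Agent.H522R2 Pool.Agent.H522R2.Circuit Pool.Agent.H522R3.TW
open Pool.Agent.U514.MM
open Pool.Agent.W956.KF (growth omega sizeMM trank)
open Pool.Agent.U514.SP (Opd Net dst IsAlg nnz X₀ T₀ S_POW)

/-- The exponent of matrix multiplication for circuits in `ℤ ^ d` whose wires join neighbouring
points. -/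
noncomputable def gridExp (F : Type) [Field F] (d : ℕ) : ℝ := growth (gridMM F d)

lemma num (l s S K cost : ℕ) (hK : K = 8585216) (hS : (S : ℝ) ≤ 2 * 14745600 ^ l)
    (h : cost ≤ 20 * (s * s * (9 * (16 ^ l) ^ 2 * (16 ^ l * s) * S +
      4 * K ^ l * (256 ^ l) ^ 2 * (16 ^ l) ^ 6))) :
    (cost : ℝ) ≤ 360 * (((16 : ℝ) ^ l * s) ^ 3 * 14745600 ^ l +
      (s : ℝ) ^ 2 * (8585216 * 2 ^ 40) ^ l) := by
  have h1 : (cost : ℝ) ≤ 20 * ((s : ℝ) * s * (9 * ((16 : ℝ) ^ l) ^ 2 * (16 ^ l * s) * S +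
      4 * (K : ℝ) ^ l * (256 ^ l) ^ 2 * (16 ^ l) ^ 6)) := by exact_mod_cast h
  have e1 : ((8585216 : ℝ) * 2 ^ 40) ^ l = 8585216 ^ l * (256 ^ l) ^ 2 * (16 ^ l) ^ 6 := by
    rw [← pow_mul, ← pow_mul, mul_comm l 2, mul_comm l 6, pow_mul, pow_mul, ← mul_pow, ← mul_pow]
    norm_num
  rw [e1]
  have hK' : (K : ℝ) = 8585216 := by rw [hK]; norm_num
  rw [hK'] at h1
  refine h1.trans ?_
  have h2 : 20 * ((s : ℝ) * s * (9 * ((16 : ℝ) ^ l) ^ 2 * (16 ^ l * s) * S)) ≤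
      20 * ((s : ℝ) * s * (9 * ((16 : ℝ) ^ l) ^ 2 * (16 ^ l * s) * (2 * 14745600 ^ l))) := by
    gcongr
  have h3 : 0 ≤ (s : ℝ) ^ 2 * (8585216 ^ l * (256 ^ l) ^ 2 * (16 ^ l) ^ 6) := by positivity
  nlinarith [h2, h3]

/-- Existence of the circuits. -/
theorem exists_grid (hN : S_NETL) (hT : S_TILE) (hG : S_GRID) (hS : S_SUMO) (hA : S_ALG)
    (hC : S_CARD) (hB : S_BASEX) (hP : S_POW)
    (F : Type) [Field F] (d : ℕ) (hd : 2 ≤ d) (l s n : ℕ) (hs : 0 < s) (hn : n ≤ 4096 ^ l * s) :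
    ∃ (C : Circuit F (Vars n)) (pos : {k : Fin C.nodes // IsGate C k} → Fin d → ℤ),
      (∀ i j, ∃ k, C.poly k = entry F n i j) ∧ Function.Injective pos ∧ Neighbours C pos ∧
      (C.size : ℝ) ≤ 360 * (((16 : ℝ) ^ l * s) ^ 3 * 14745600 ^ l +
        (s : ℝ) ^ 2 * (8585216 * 2 ^ 40) ^ l) := by
  obtain ⟨a, b, c, w, hw1, hw2, hw3, hw4, hw5⟩ := hB F
  have cX : Fintype.card X₀ = 256 := by simp [X₀]
  have cT0 : 0 < Fintype.card T₀ := Fintype.card_pos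
  have cT : Fintype.card T₀ = 8585216 := by simp [T₀]
  obtain ⟨a', b', c', t, h1, h2, h3, h4, h5, h6⟩ := hP F X₀ T₀ a b c w hw1 hw2 hw3 hw4 l
  obtain ⟨C, pos, g1, g2, g3, g4⟩ := pad hN hT hG hS hA hC F d hd (Fintype.card X₀ ^ l)
    (Fintype.card T₀ ^ l) (16 ^ l) s a' b' c' t (by rw [cX]; positivity) (pow_pos cT0 l)
    (by positivity) hs h2 h3 h1 h4 h5 n (by
      rw [cX]
      refine hn.trans (le_of_eq ?_)
      rw [← mul_assoc, ← mul_pow]
      exact congrArg (fun v => v ^ l * s) (by norm_num : (4096 : ℕ) = 256 * 16))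
  refine ⟨C, pos, g1, g2, g3, ?_⟩
  have g5 := g4
  rw [cX] at g5
  have h7 : ((∑ τ, t τ : ℕ) : ℝ) ≤ 2 * 14745600 ^ l := by
    rw [Nat.cast_sum]
    refine h6.trans ?_
    have h8 : 0 ≤ ∑ τ, w τ := sum_nonneg fun τ _ => le_trans zero_le_one (hw4 τ).1
    exact mul_le_mul_of_nonneg_left (pow_le_pow_left₀ h8 hw5 l) zero_le_two
  exact num l s (∑ τ, t τ) (Fintype.card T₀) C.size cT h7 g5

theorem grid_upper (hN : S_NETL) (hT : S_TILE) (hG : S_GRID) (hS : S_SUMO) (hA : S_ALG)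
    (hC : S_CARD) (hB : S_BASEX) (hP : S_POW) (hX : S_ASYX) :
    ∃ D : ℝ, ∀ (F : Type) [Field F] (d : ℕ), 2 ≤ d → ∀ m : ℕ,
      (gridMM F d m : ℝ) ≤ D * (m : ℝ) ^ (2.996 : ℝ) := by
  obtain ⟨D, hD⟩ := hX 360 (by norm_num)
  refine ⟨D, fun F _ d hd => hD (gridMM F d) ?_ ?_⟩
  · apply Nat.eq_zero_of_le_zero
    refine Nat.sInf_le ⟨⟨0, fun k => k.elim0⟩, fun k => k.1.elim0, fun i => i.elim0,
      fun k => k.1.elim0, fun k => k.1.elim0, ?_⟩
    have h1 : IsEmpty {k : Fin (⟨0, fun k => k.elim0⟩ : Circuit F (Vars 0)).nodes //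
        IsGate (⟨0, fun k => k.elim0⟩ : Circuit F (Vars 0)) k} := ⟨fun k => k.1.elim0⟩
    rw [size_eq]
    exact Nat.card_of_isEmpty
  · intro l s n hs hn
    obtain ⟨C, pos, g1, g2, g3, g4⟩ := exists_grid hN hT hG hS hA hC hB hP F d hd l s n hs hn
    refine le_trans ?_ g4
    exact_mod_cast (Nat.sInf_le ⟨C, pos, g1, g2, g3, rfl⟩ : gridMM F d n ≤ C.size)

theorem gridMM_spec (hN : S_NETL) (hT : S_TILE) (hG : S_GRID) (hS : S_SUMO) (hA : S_ALG)
    (hC : S_CARD) (hB : S_BASEX) (hP : S_POW) (F : Type) [Field F] (d : ℕ) (hd : 2 ≤ d) (n : ℕ) :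
    ∃ (C : Circuit F (Vars n)) (pos : {k : Fin C.nodes // IsGate C k} → Fin d → ℤ),
      (∀ i j, ∃ k, C.poly k = entry F n i j) ∧ Function.Injective pos ∧ Neighbours C pos ∧
      C.size = gridMM F d n := by
  obtain ⟨C, pos, g1, g2, g3, g4⟩ := exists_grid hN hT hG hS hA hC hB hP F d hd 0 (n + 1) n
    (Nat.succ_pos n) (by rw [pow_zero, one_mul]; exact Nat.le_succ n)
  exact Nat.sInf_mem (s := {c | ∃ (C : Circuit F (Vars n))
    (pos : {k : Fin C.nodes // IsGate C k} → Fin d → ℤ),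
    (∀ i j, ∃ k, C.poly k = entry F n i j) ∧ Function.Injective pos ∧ Neighbours C pos ∧
      C.size = c}) ⟨_, C, pos, g1, g2, g3, rfl⟩

/-- A circuit whose wires join neighbouring points has at most `2 s` length of wires. -/
theorem wire_le {F V : Type} [Field F] {d : ℕ} (C : Circuit F V)
    (pos : {k : Fin C.nodes // IsGate C k} → Fin d → ℤ) (h : Neighbours C pos) :
    C.size + wireLength C pos ≤ 3 * C.size := by
  have := wireLength_le C pos 1 fun a b hab => (h a b hab).le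
  omega

/-- **Lower bounds.** -/
theorem grid_lower {F : Type} [Field F] {d m : ℕ} (C : Circuit F (Vars m))
    (pos : {k : Fin C.nodes // IsGate C k} → Fin d → ℤ) (hd : 1 ≤ d)
    (hC : ∀ i j, ∃ k, C.poly k = entry F m i j) (hpos : Function.Injective pos)
    (h : Neighbours C pos) :
    m ^ (2 * d + 4) ≤ 2 ^ (4 * d + 2) * (readCount C * (3 * C.size) ^ d) ∧
      (m : ℝ) ^ (2 + 2 / ((d : ℝ) + 1)) ≤ 48 * (C.size : ℝ) := by
  have h1 := wire_le C pos h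
  constructor
  · refine (wire_product C hC pos hpos hd).trans ?_
    gcongr
  · refine (wire_real C hC pos hpos hd).trans ?_
    have h2 : ((C.size + wireLength C pos : ℕ) : ℝ) ≤ ((3 * C.size : ℕ) : ℝ) := by
      exact_mod_cast h1
    push_cast at h2 ⊢
    linarith

theorem grid_exponents (hN : S_NETL) (hT : S_TILE) (hG : S_GRID) (hS : S_SUMO) (hA : S_ALG)
    (hC : S_CARD) (hB : S_BASEX) (hP : S_POW) (hX : S_ASYX) (F : Type) [Field F] (d : ℕ)
    (hd : 2 ≤ d) :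
    max (omega F) (2 + 2 / ((d : ℝ) + 1)) ≤ spaceExp F d ∧ spaceExp F d ≤ gridExp F d ∧
      gridExp F d ≤ 2.996 := by
  have hd1 : 1 ≤ d := by omega
  obtain ⟨D, hD⟩ := grid_upper hN hT hG hS hA hC hB hP hX
  have hspec := fun n => gridMM_spec hN hT hG hS hA hC hB hP F d hd n
  have hle : ∀ m, costMM F d m ≤ 3 * gridMM F d m := by
    intro m
    obtain ⟨C, pos, g1, g2, g3, g4⟩ := hspec m
    rw [← g4]
    exact (Nat.sInf_le ⟨C, pos, g1, g2, rfl⟩ : costMM F d m ≤ C.size + wireLength C pos).trans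
      (wire_le C pos g3)
  have hlow : ∀ m : ℕ, (1 / 48 : ℝ) * (m : ℝ) ^ (2 + 2 / ((d : ℝ) + 1)) ≤ gridMM F d m := by
    intro m
    obtain ⟨C, pos, g1, g2, g3, g4⟩ := hspec m
    have := (grid_lower C pos hd1 g1 g2 g3).2
    rw [g4] at this
    linarith
  refine ⟨max_le (omega_le_space F d hd1) (space_lower F d hd1), ?_,
    growth_le (by norm_num) hlow (hD F d hd)⟩
  refine csInf_le_csInf ?_ ⟨2.996, D, hD F d hd⟩ ?_
  · exact ⟨2 + 2 / ((d : ℝ) + 1), fun _ ⟨_, hD'⟩ => exp_le (by norm_num : (0 : ℝ) < 1 / 16)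
      fun m => (costMM_lower F d m hd1).trans (hD' m)⟩
  · rintro τ ⟨D', hD'⟩
    refine ⟨3 * D', fun m => ?_⟩
    have h1 : (costMM F d m : ℝ) ≤ 3 * gridMM F d m := by exact_mod_cast hle m
    have h2 := hD' m
    linarith

end Pool.Agent.U514.TG
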