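import Mathlib
import Pool.Agent.U514.TG.Pad
import Pool.Agent.U514.MM.Univ
import Pool.Agent.Helper770.Planar

/-!
# Project TG: planarity (statements of two more packages)
-/

set_option autoImplicit false

namespace Pool.Agent.U514.TG

open Finset
open Pool.Agent.H522R2 Pool.Agent.H522R2.Circuit Pool.Agent.H522R3.TW
open Pool.Agent.U514.MM Pool.Agent.U514.MU
open Pool.Agent.Helper770.Crossing

/-- The graph has a drawing in the plane without crossings. -/
def IsPlanar {V : Type} (G : SimpleGraph V) : Prop := ∃ D : Drawing G, D.crossings = ∅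

/-- PLAN: if the gates are at different points of `ℤ ^ 2` and all wires between gates join
neighbouring points, then the graph of the gates is planar. -/
def S_PLAN : Prop :=
  ∀ (F V : Type) (C : Circuit F V) (pos : {k : Fin C.nodes // IsGate C k} → Fin 2 → ℤ),
    Function.Injective pos → Neighbours C pos → IsPlanar (gateGraph C)

/-- PLOW: a finite planar graph has no complete graph with five vertices as a minor. -/
def S_PLOW : Prop :=
  ∀ (V : Type) [Fintype V] (G : SimpleGraph V), IsPlanar G →
    ∀ d : ℕ, ¬ HasMinor G (⊤ : SimpleGraph (Fin 5)) d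

/-- PEXP: the exponent `8 / 3`. -/
def S_PEXP : Prop :=
  ∀ (K : ℕ) (ε : ℝ), 0 < ε → ε < 1 → ∃ c : ℝ, 0 < c ∧ ∀ m s : ℕ,
    m ^ 8 ≤ K * ((Nat.log 2 s + 1) * s ^ 3) → c * (m : ℝ) ^ (8 / 3 - ε) ≤ (s : ℝ)

end Pool.Agent.U514.TG
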