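import Mathlib
import Pool.Agent.U514.TG.Main
import Pool.Agent.U514.TG.Stm2
import Pool.Agent.U103.TG.NETL
import Pool.Agent.U83.TG.TILE
import Pool.Agent.U750.TG.LOCX
import Pool.Agent.U358.TG.LOCY
import Pool.Agent.U429.TG.GRID
import Pool.Agent.U261.TG.SUMO
import Pool.Agent.U913.TG.ALG
import Pool.Agent.U324.TG.CARD
import Pool.Agent.U810.TG.BASEX
import Pool.Agent.U894.TG.ASYX
import Pool.Agent.U324.TG.PLAN
import Pool.Agent.U2.TG.PLOW
import Pool.Agent.U103.TG.PEXP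
import Pool.Agent.U67.SP.POW

/-!
# Planar arithmetic circuits for matrix multiplication
-/

set_option autoImplicit false

namespace Pool.Agent.U514.TG

open Finset
open Pool.Agent.H522R2 Pool.Agent.H522R2.Circuit Pool.Agent.H522R3.TW
open Pool.Agent.U514.MM Pool.Agent.U514.MU
open Pool.Agent.W956.KF (growth omega sizeMM trank)

theorem grid : S_GRID :=
  Pool.Agent.U429.TG.GRID.t_GRID Pool.Agent.U750.TG.LOCX.t_LOCX Pool.Agent.U358.TG.t_LOCY

/-- The least number of gates of a planar circuit for the product of two `m × m` matrices. -/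
noncomputable def planarMM (F : Type) [Field F] (m : ℕ) : ℕ :=
  sInf {c | ∃ C : Circuit F (Vars m), (∀ i j, ∃ k, C.poly k = entry F m i j) ∧
    IsPlanar (gateGraph C) ∧ C.size = c}

/-- The exponent of matrix multiplication for planar circuits. -/
noncomputable def planarExp (F : Type) [Field F] : ℝ := growth (planarMM F)

/-- **Circuits in the grid.** -/
theorem grid_circuits :
    ∃ D : ℝ, ∀ (F : Type) [Field F] (d m : ℕ), 2 ≤ d →
      ∃ (C : Circuit F (Vars m)) (pos : {k : Fin C.nodes // IsGate C k} → Fin d → ℤ),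
        (∀ i j, ∃ k, C.poly k = entry F m i j) ∧ Function.Injective pos ∧ Neighbours C pos ∧
        (C.size : ℝ) ≤ D * (m : ℝ) ^ (2.996 : ℝ) := by
  obtain ⟨D, hD⟩ := grid_upper Pool.Agent.U103.TG.NETL.t_NETL Pool.Agent.U83.TG.TILE.t_TILE grid
    Pool.Agent.U261.TG.t_SUMO Pool.Agent.U913.TG.t_ALG Pool.Agent.U324.TG.CARD.t_CARD
    Pool.Agent.U810.TG.BASEX.t_BASEX Pool.Agent.U67.SP.POW.t_POW Pool.Agent.U894.TG.t_ASYX
  refine ⟨D, fun F _ d m hd => ?_⟩
  obtain ⟨C, pos, g1, g2, g3, g4⟩ := gridMM_spec Pool.Agent.U103.TG.NETL.t_NETL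
    Pool.Agent.U83.TG.TILE.t_TILE grid
    Pool.Agent.U261.TG.t_SUMO Pool.Agent.U913.TG.t_ALG Pool.Agent.U324.TG.CARD.t_CARD
    Pool.Agent.U810.TG.BASEX.t_BASEX Pool.Agent.U67.SP.POW.t_POW F d hd m
  exact ⟨C, pos, g1, g2, g3, by rw [g4]; exact hD F d hd m⟩

theorem exponents (F : Type) [Field F] (d : ℕ) (hd : 2 ≤ d) :
    max (omega F) (2 + 2 / ((d : ℝ) + 1)) ≤ spaceExp F d ∧ spaceExp F d ≤ gridExp F d ∧
      gridExp F d ≤ 2.996 :=
  grid_exponents Pool.Agent.U103.TG.NETL.t_NETL Pool.Agent.U83.TG.TILE.t_TILE grid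
    Pool.Agent.U261.TG.t_SUMO Pool.Agent.U913.TG.t_ALG Pool.Agent.U324.TG.CARD.t_CARD
    Pool.Agent.U810.TG.BASEX.t_BASEX Pool.Agent.U67.SP.POW.t_POW Pool.Agent.U894.TG.t_ASYX F d hd

lemma k5_edges : (⊤ : SimpleGraph (Fin 5)).edgeSet.ncard = 10 := by
  have h1 : ((⊤ : SimpleGraph (Fin 5)).edgeFinset : Set (Sym2 (Fin 5))) =
      (⊤ : SimpleGraph (Fin 5)).edgeSet := SimpleGraph.coe_edgeFinset _
  rw [← h1, Set.ncard_coe_finset, SimpleGraph.card_edgeFinset_top_eq_card_choose_two]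
  rfl

/-- **The lower bound for planar circuits.** -/
theorem planar_lower {F : Type} [Field F] {m : ℕ} (C : Circuit F (Vars m))
    (hC : ∀ i j, ∃ k, C.poly k = entry F m i j) (hpl : IsPlanar (gateGraph C)) :
    m ^ 8 ≤ 2 ^ 59 * ((Nat.log 2 C.size + 1) * C.size ^ 3) := by
  classical
  have h1 := mm_minor_free C hC (M := 10) (by norm_num) (Fin 5) ⊤ (by simp)
    (by rw [k5_edges])
    (Pool.Agent.U2.TG.PLOW.t_PLOW _ (gateGraph C) hpl)
  refine h1.trans ?_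
  have h2 : 2 ^ 55 * (10 * (Nat.log 2 C.size + 1) * C.size ^ 3) =
      2 ^ 55 * 10 * ((Nat.log 2 C.size + 1) * C.size ^ 3) := by ring
  rw [h2]
  exact Nat.mul_le_mul_right _ (by norm_num)

/-- Every circuit in the grid `ℤ ^ 2` is planar. -/
theorem planar_of_grid {F V : Type} (C : Circuit F V)
    (pos : {k : Fin C.nodes // IsGate C k} → Fin 2 → ℤ) (h1 : Function.Injective pos)
    (h2 : Neighbours C pos) : IsPlanar (gateGraph C) :=
  Pool.Agent.U324.TG.PLAN.t_PLAN F V C pos h1 h2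

/-- **The exponent for planar circuits.** -/
theorem planar_exponent (F : Type) [Field F] :
    max (omega F) (8 / 3) ≤ planarExp F ∧ planarExp F ≤ gridExp F 2 := by
  obtain ⟨D, hD⟩ := grid_circuits
  have hspec : ∀ m, ∃ C : Circuit F (Vars m), (∀ i j, ∃ k, C.poly k = entry F m i j) ∧
      IsPlanar (gateGraph C) ∧ C.size = planarMM F m := by
    intro m
    obtain ⟨C, pos, g1, g2, g3, g4⟩ := hD F 2 m le_rfl
    exact Nat.sInf_mem (s := {c | ∃ C : Circuit F (Vars m),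
      (∀ i j, ∃ k, C.poly k = entry F m i j) ∧
      IsPlanar (gateGraph C) ∧ C.size = c}) ⟨_, C, g1, planar_of_grid C pos g2 g3, rfl⟩
  have hle : ∀ m, planarMM F m ≤ gridMM F 2 m := by
    intro m
    obtain ⟨C, pos, g1, g2, g3, g4⟩ := gridMM_spec Pool.Agent.U103.TG.NETL.t_NETL
      Pool.Agent.U83.TG.TILE.t_TILE grid
      Pool.Agent.U261.TG.t_SUMO Pool.Agent.U913.TG.t_ALG Pool.Agent.U324.TG.CARD.t_CARD
      Pool.Agent.U810.TG.BASEX.t_BASEX Pool.Agent.U67.SP.POW.t_POW F 2 le_rfl m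
    rw [← g4]
    exact Nat.sInf_le ⟨C, g1, planar_of_grid C pos g2 g3, rfl⟩
  obtain ⟨D', hD'⟩ := grid_upper Pool.Agent.U103.TG.NETL.t_NETL Pool.Agent.U83.TG.TILE.t_TILE grid
    Pool.Agent.U261.TG.t_SUMO Pool.Agent.U913.TG.t_ALG Pool.Agent.U324.TG.CARD.t_CARD
    Pool.Agent.U810.TG.BASEX.t_BASEX Pool.Agent.U67.SP.POW.t_POW Pool.Agent.U894.TG.t_ASYX
  have hne : {τ : ℝ | ∃ D : ℝ, ∀ m : ℕ, (planarMM F m : ℝ) ≤ D * (m : ℝ) ^ τ}.Nonempty :=
    ⟨2.996, D', fun m => le_trans (by exact_mod_cast hle m) (hD' F 2 le_rfl m)⟩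
  have hs : ∀ m, sizeMM F m ≤ planarMM F m := by
    intro m
    obtain ⟨C, g1, g2, g3⟩ := hspec m
    rw [← g3]
    exact Nat.sInf_le ⟨C, g1, rfl⟩
  refine ⟨max_le ?_ ?_, ?_⟩
  · rw [← omega_eq_size]
    refine csInf_le_csInf ?_ hne ?_
    · exact ⟨2, fun _ ⟨_, hD'⟩ => exp_le one_pos fun m => (sizeMM_lower F m).trans (hD' m)⟩
    · rintro τ ⟨D, hD⟩
      exact ⟨D, fun m => le_trans (by exact_mod_cast hs m) (hD m)⟩
  · refine le_of_forall_pos_lt_add fun ε hε => ?_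
    obtain ⟨δ, hδ0, hδ1, hδ2⟩ : ∃ δ : ℝ, 0 < δ ∧ δ < 1 ∧ δ < ε :=
      ⟨min (1 / 2) (ε / 2), by positivity, lt_of_le_of_lt (min_le_left _ _) (by norm_num),
        lt_of_le_of_lt (min_le_right _ _) (by linarith)⟩
    obtain ⟨c, hc, h1⟩ := Pool.Agent.U103.TG.PEXP.t_PEXP (2 ^ 59) δ hδ0 hδ1
    have h2 : 8 / 3 - δ ≤ planarExp F := by
      refine le_growth hc (fun m => ?_) hne
      obtain ⟨C, g1, g2, g3⟩ := hspec m
      rw [← g3]
      exact h1 m C.size (planar_lower C g1 g2)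
    linarith
  · refine csInf_le_csInf ?_ ⟨2.996, D', hD' F 2 le_rfl⟩ ?_
    · exact ⟨2, fun _ ⟨_, hD'⟩ => exp_le one_pos fun m => (sizeMM_lower F m).trans
        (le_trans (by exact_mod_cast hs m) (hD' m))⟩
    · rintro τ ⟨D, hD⟩
      exact ⟨D, fun m => le_trans (by exact_mod_cast hle m) (hD m)⟩

end Pool.Agent.U514.TG
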